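import Pool.Agent.H3.Taut1

namespace Pool.Agent.Results.MP_cd2c38_gt.Seven

open Pool.Agent.H3.Taut

theorem result : ∃ f : RP3 → EuclideanSpace ℝ (Fin 8),
    IsSmoothEmbedding f ∧ (∀ x, ‖f x‖ = 1) ∧ IsSubstantial f ∧ IsTaut f := by
  refine final (n := 2) (by norm_num)
    ![9 / 25, 15 / 25, 15 / 25, 16 / 25, 20 / 25, 20 / 25, 12 / 25, 12 / 25]
    (fun k => by fin_cases k <;> simp) fun x => ?_
  simp only [M_val, dot_val]
  simp [Fin.sum_univ_succ]
  ring

end Pool.Agent.Results.MP_cd2c38_gt.Seven
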